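import Pool.Agent.MRDP.PartrecDioph

/-!
# The Matiyasevich-Robinson-Davis-Putnam theorem

* `exists_mvPolynomial_nat`: every recursively enumerable predicate `p` on `ℕ` is of the form
  `p a ↔ ∃ x : Fin m → ℕ, P(a, x) = 0` with `P ∈ ℤ[X_0, …, X_m]`;
* `exists_mvPolynomial_int`: the same with unknowns ranging over `ℤ`;
* `exists_undecidable_polynomial_nat`, `exists_undecidable_polynomial_int`: there is a fixed `P`
  for which the set of solvable parameters `a` is not computable.
-/

namespace Pool.Agent.MRDP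

open Dioph

/-- Every `Poly` is given by a genuine multivariate polynomial. -/
theorem poly_to_mvPolynomial {γ : Type} (p : Poly γ) :
    ∃ q : MvPolynomial γ ℤ, ∀ v : γ → ℕ, p v = MvPolynomial.eval (fun i => (v i : ℤ)) q := by
  induction p using Poly.induction with
  | H1 i => exact ⟨MvPolynomial.X i, fun v => by simp⟩
  | H2 n => exact ⟨MvPolynomial.C n, fun v => by simp⟩
  | H3 f g hf hg =>
    obtain ⟨q, hq⟩ := hf
    obtain ⟨r, hr⟩ := hg
    exact ⟨q - r, fun v => by simp [hq, hr]⟩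
  | H4 f g hf hg =>
    obtain ⟨q, hq⟩ := hf
    obtain ⟨r, hr⟩ := hg
    exact ⟨q * r, fun v => by simp [hq, hr]⟩

/-- Every multivariate integer polynomial gives a `Poly`. -/
theorem mvPolynomial_to_poly {γ : Type} (q : MvPolynomial γ ℤ) :
    ∃ p : Poly γ, ∀ v : γ → ℕ, p v = MvPolynomial.eval (fun i => (v i : ℤ)) q := by
  induction q using MvPolynomial.induction_on with
  | C n => exact ⟨Poly.const n, fun v => by simp⟩
  | add f g hf hg =>
    obtain ⟨q, hq⟩ := hf
    obtain ⟨r, hr⟩ := hg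
    exact ⟨q + r, fun v => by simp [hq, hr]⟩
  | mul_X f i hf =>
    obtain ⟨q, hq⟩ := hf
    exact ⟨q * Poly.proj i, fun v => by simp [hq]⟩

/-- A Diophantine set of tuples indexed by any type, in terms of a genuine polynomial with
finitely many unknowns. -/
theorem dioph_mvPolynomial {α : Type} {S : Set (α → ℕ)} (h : Dioph S) :
    ∃ (m : ℕ) (P : MvPolynomial (α ⊕ Fin m) ℤ), ∀ v : α → ℕ, v ∈ S ↔
      ∃ x : Fin m → ℕ, MvPolynomial.eval (Sum.elim (fun i => (v i : ℤ)) fun j => (x j : ℤ)) P = 0 := by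
  obtain ⟨m, p, hp⟩ := exists_fin_dummies h
  obtain ⟨q, hq⟩ := poly_to_mvPolynomial p
  refine ⟨m, q, fun v => (hp v).trans (exists_congr fun x => ?_)⟩
  rw [hq]
  have : (fun i => ((Sum.elim v x i : ℕ) : ℤ)) =
      Sum.elim (fun i => (v i : ℤ)) fun j => (x j : ℤ) := by
    funext i; rcases i with i | i <;> rfl
  rw [this]

/-- The domain form for recursively enumerable predicates. -/
theorem rePred_dioph {p : ℕ → Prop} (hp : REPred p) : Dioph {v : Unit → ℕ | p (v ())} := by
  have h1 : Partrec fun a : ℕ => (Part.assert (p a) fun _ => Part.some ()).map fun _ => (0 : ℕ) :=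
    hp.map ((Computable.const 0).comp Computable.snd).to₂
  refine Dioph.ext (partrec_dom_dioph (Partrec.nat_iff.1 h1)) fun v => ?_
  change ((Part.assert (p (v ())) fun _ => Part.some ()).map fun _ => (0 : ℕ)).Dom ↔ p (v ())
  constructor
  · rintro ⟨h, _⟩; exact h
  · intro h; exact ⟨h, trivial⟩

/-- **MRDP theorem**, unknowns in `ℕ`. -/
theorem exists_mvPolynomial_nat {p : ℕ → Prop} (hp : REPred p) :
    ∃ (m : ℕ) (P : MvPolynomial (Fin (m + 1)) ℤ), ∀ a : ℕ, p a ↔
      ∃ x : Fin m → ℕ, MvPolynomial.eval (Fin.cons (a : ℤ) fun j => (x j : ℤ)) P = 0 := by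
  obtain ⟨m, P, hP⟩ := dioph_mvPolynomial (rePred_dioph hp)
  refine ⟨m, MvPolynomial.rename (Sum.elim (fun _ => 0) Fin.succ) P, fun a => ?_⟩
  have := hP fun _ => a
  refine (Iff.trans Iff.rfl this).trans (exists_congr fun x => ?_)
  rw [MvPolynomial.eval_rename]
  have e : (Fin.cons (a : ℤ) fun j => (x j : ℤ) : Fin (m + 1) → ℤ) ∘
      (Sum.elim (fun _ => 0) Fin.succ) = Sum.elim (fun _ : Unit => (a : ℤ)) fun j => (x j : ℤ) := by
    funext i; rcases i with i | i
    · rfl
    · simp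
  rw [e]

/-- **MRDP theorem**, unknowns in `ℤ`. -/
theorem exists_mvPolynomial_int {p : ℕ → Prop} (hp : REPred p) :
    ∃ (m : ℕ) (P : MvPolynomial (Fin (m + 1)) ℤ), ∀ a : ℕ, p a ↔
      ∃ x : Fin m → ℤ, MvPolynomial.eval (Fin.cons (a : ℤ) x) P = 0 := by
  obtain ⟨m, P, hP⟩ := exists_mvPolynomial_nat hp
  let F : Fin (m + 1) → MvPolynomial (Fin (m * 4 + 1)) ℤ :=
    Fin.cons (MvPolynomial.X 0) fun i => ∑ j : Fin 4,
      (MvPolynomial.X (Fin.succ (finProdFinEquiv (i, j)))) ^ 2
  refine ⟨m * 4, MvPolynomial.bind₁ F P, fun a => (hP a).trans ?_⟩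
  have heval : ∀ y : Fin (m * 4) → ℤ,
      MvPolynomial.eval (Fin.cons (a : ℤ) y) (MvPolynomial.bind₁ F P) =
        MvPolynomial.eval (Fin.cons (a : ℤ) fun i => ∑ j : Fin 4, y (finProdFinEquiv (i, j)) ^ 2)
          P := by
    intro y
    have h1 : MvPolynomial.eval (Fin.cons (a : ℤ) y) (MvPolynomial.bind₁ F P) =
        MvPolynomial.eval (fun i => MvPolynomial.eval (Fin.cons (a : ℤ) y) (F i)) P :=
      MvPolynomial.eval₂Hom_bind₁ (RingHom.id ℤ) (Fin.cons (a : ℤ) y) F P
    rw [h1]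
    congr 2
    funext i
    refine Fin.cases ?_ (fun i => ?_) i
    · simp [F]
    · simp [F]
  constructor
  · rintro ⟨x, hx⟩
    choose s1 s2 s3 s4 hs using fun i => Nat.sum_four_squares (x i)
    let y : Fin (m * 4) → ℤ := fun k =>
      (![(s1 (finProdFinEquiv.symm k).1 : ℤ), s2 (finProdFinEquiv.symm k).1,
        s3 (finProdFinEquiv.symm k).1, s4 (finProdFinEquiv.symm k).1] : Fin 4 → ℤ)
        (finProdFinEquiv.symm k).2
    refine ⟨y, ?_⟩
    rw [heval]
    have e : (fun i => ∑ j : Fin 4, y (finProdFinEquiv (i, j)) ^ 2) = fun j => (x j : ℤ) := by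
      funext i
      have hy : ∀ j : Fin 4, y (finProdFinEquiv (i, j)) =
          (![(s1 i : ℤ), s2 i, s3 i, s4 i] : Fin 4 → ℤ) j := by
        intro j
        simp only [y, Equiv.symm_apply_apply]
      rw [← hs i, Fin.sum_univ_four, hy, hy, hy, hy]
      simp
    rw [e]; exact hx
  · rintro ⟨y, hy⟩
    rw [heval] at hy
    refine ⟨fun i => (∑ j : Fin 4, y (finProdFinEquiv (i, j)) ^ 2).toNat, ?_⟩
    have e : (fun i => (((∑ j : Fin 4, y (finProdFinEquiv (i, j)) ^ 2).toNat : ℕ) : ℤ)) =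
        fun i => ∑ j : Fin 4, y (finProdFinEquiv (i, j)) ^ 2 := by
      funext i
      exact Int.toNat_of_nonneg (Finset.sum_nonneg fun j _ => sq_nonneg _)
    rw [e]; exact hy

/-- A recursively enumerable, non-computable predicate on `ℕ`. -/
theorem exists_rePred_not_computablePred :
    ∃ p : ℕ → Prop, REPred p ∧ ¬ ComputablePred p := by
  refine ⟨fun n => ((Denumerable.ofNat Nat.Partrec.Code n).eval 0).Dom, ?_, ?_⟩
  · have h := ComputablePred.halting_problem_re 0
    exact h.comp (Computable.ofNat Nat.Partrec.Code)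
  · intro h
    apply ComputablePred.halting_problem 0
    obtain ⟨D, hD⟩ := h
    have h2 : ComputablePred fun c : Nat.Partrec.Code =>
        ((Denumerable.ofNat Nat.Partrec.Code (Encodable.encode c)).eval 0).Dom :=
      ⟨fun c => D (Encodable.encode c), hD.comp Computable.encode⟩
    simpa using h2

/-- **Hilbert's tenth problem**, parametric form with unknowns in `ℕ`: a fixed polynomial for which
the solvable parameters do not form a computable set. -/
theorem exists_undecidable_polynomial_nat :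
    ∃ (m : ℕ) (P : MvPolynomial (Fin (m + 1)) ℤ), ¬ ComputablePred fun a : ℕ =>
      ∃ x : Fin m → ℕ, MvPolynomial.eval (Fin.cons (a : ℤ) fun j => (x j : ℤ)) P = 0 := by
  obtain ⟨p, hp, hnc⟩ := exists_rePred_not_computablePred
  obtain ⟨m, P, hP⟩ := exists_mvPolynomial_nat hp
  refine ⟨m, P, fun h => hnc ?_⟩
  exact h.of_eq fun a => (hP a).symm

/-- **Hilbert's tenth problem**, parametric form with unknowns in `ℤ`. -/
theorem exists_undecidable_polynomial_int :
    ∃ (m : ℕ) (P : MvPolynomial (Fin (m + 1)) ℤ), ¬ ComputablePred fun a : ℕ =>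
      ∃ x : Fin m → ℤ, MvPolynomial.eval (Fin.cons (a : ℤ) x) P = 0 := by
  obtain ⟨p, hp, hnc⟩ := exists_rePred_not_computablePred
  obtain ⟨m, P, hP⟩ := exists_mvPolynomial_int hp
  refine ⟨m, P, fun h => hnc ?_⟩
  exact h.of_eq fun a => (hP a).symm

end Pool.Agent.MRDP
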