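import Mathlib

/-!
# Binomial coefficients, factorials and products of arithmetic progressions are Diophantine
-/

namespace Pool.Agent.MRDP

open Finset Dioph

/-! ### Binomial coefficient -/

theorem digit_aux {u : ℕ} : ∀ (k N : ℕ) (d : ℕ → ℕ), (∀ i, d i < u) → (∀ i, N ≤ i → d i = 0) →
    (∑ i ∈ range N, d i * u ^ i) / u ^ k % u = d k := by
  intro k
  induction k with
  | zero =>
    intro N d hd hN
    cases N with
    | zero => simp [hN 0 le_rfl]
    | succ N =>
      rw [Finset.sum_range_succ', pow_zero, Nat.div_one, mul_one]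
      have : (∑ k ∈ range N, d (k + 1) * u ^ (k + 1)) = u * ∑ k ∈ range N, d (k + 1) * u ^ k := by
        rw [Finset.mul_sum]; exact Finset.sum_congr rfl fun i _ => by ring
      rw [this, Nat.mul_add_mod, Nat.mod_eq_of_lt (hd 0)]
  | succ k ih =>
    intro N d hd hN
    cases N with
    | zero => simp [hN (k + 1) (Nat.zero_le _)]
    | succ N =>
      have h0 : 0 < u := lt_of_le_of_lt (Nat.zero_le _) (hd 0)
      rw [Finset.sum_range_succ', pow_zero, mul_one]
      have : (∑ k ∈ range N, d (k + 1) * u ^ (k + 1)) = u * ∑ k ∈ range N, d (k + 1) * u ^ k := by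
        rw [Finset.mul_sum]; exact Finset.sum_congr rfl fun i _ => by ring
      rw [this, pow_succ', ← Nat.div_div_eq_div_mul, Nat.mul_add_div h0,
        Nat.div_eq_of_lt (hd 0), add_zero]
      exact ih N (fun i => d (i + 1)) (fun i => hd _) (fun i hi => hN _ (by omega))

theorem choose_eq (n k : ℕ) :
    n.choose k = ((2 ^ n + 1 + 1) ^ n / (2 ^ n + 1) ^ k) % (2 ^ n + 1) := by
  have h := digit_aux (u := 2 ^ n + 1) k (n + 1) (fun i => n.choose i)
    (fun i => Nat.lt_succ_of_le (Nat.choose_le_two_pow n i))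
    (fun i hi => Nat.choose_eq_zero_of_lt (by omega))
  have e : ∑ i ∈ range (n + 1), n.choose i * (2 ^ n + 1) ^ i = (2 ^ n + 1 + 1) ^ n := by
    rw [add_pow (2 ^ n + 1) 1 n]
    exact Finset.sum_congr rfl fun i _ => by rw [one_pow, mul_one, mul_comm, Nat.cast_id]
  rw [e] at h
  exact h.symm

variable {α : Type}

theorem choose_dioph {f g : (α → ℕ) → ℕ} (df : DiophFn f) (dg : DiophFn g) :
    DiophFn fun v => (f v).choose (g v) := by
  have h2 : DiophFn fun v : α → ℕ => 2 ^ f v + 1 :=
    add_dioph (pow_dioph (const_dioph 2) df) (const_dioph 1)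
  have h3 : DiophFn fun v : α → ℕ => 2 ^ f v + 1 + 1 := add_dioph h2 (const_dioph 1)
  have h : DiophFn fun v : α → ℕ =>
      ((2 ^ f v + 1 + 1) ^ f v / (2 ^ f v + 1) ^ g v) % (2 ^ f v + 1) :=
    mod_dioph (div_dioph (pow_dioph h3 df) (pow_dioph h2 dg)) h2
  have e : (fun v : α → ℕ => (f v).choose (g v)) = fun v =>
      ((2 ^ f v + 1 + 1) ^ f v / (2 ^ f v + 1) ^ g v) % (2 ^ f v + 1) :=
    funext fun v => choose_eq _ _
  rw [e]; exact h

/-! ### Factorial -/

theorem factorial_eq_aux {n r : ℕ} (hr : (n.factorial + 1) * n ^ 2 < r) (hn : n ≤ r) :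
    r ^ n / r.choose n = n.factorial := by
  have hpos : 0 < r.choose n := Nat.choose_pos hn
  rw [Nat.div_eq_iff hpos]
  have hdf : r.descFactorial n = n.factorial * r.choose n :=
    Nat.descFactorial_eq_factorial_mul_choose r n
  have h1 : n.factorial * r.choose n ≤ r ^ n := by
    rw [← hdf]; exact Nat.descFactorial_le_pow r n
  refine ⟨h1, ?_⟩
  have hr0 : 0 < r := lt_of_le_of_lt (Nat.zero_le _) hr
  -- key inequality in the rationals
  have key : (n.factorial : ℚ) * (r : ℚ) ^ n < (n.factorial + 1) * (r.descFactorial n : ℚ) := by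
    have hb : ((r : ℚ) - n) ^ n ≤ (r.descFactorial n : ℚ) := by
      have h2 : (r + 1 - n) ^ n ≤ r.descFactorial n := Nat.pow_sub_le_descFactorial r n
      have h3 : (r - n) ^ n ≤ (r + 1 - n) ^ n := Nat.pow_le_pow_left (by omega) n
      have h4 : (((r - n : ℕ) : ℚ)) ^ n ≤ (r.descFactorial n : ℚ) := by
        exact_mod_cast h3.trans h2
      rwa [Nat.cast_sub hn] at h4
    have hrq : (0 : ℚ) < r := by exact_mod_cast hr0
    have hbern : 1 + (n : ℚ) * (-(n / r)) ≤ (1 + -(n / r : ℚ)) ^ n := by
      apply one_add_mul_le_pow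
      have : (n / r : ℚ) ≤ 1 := by
        rw [div_le_one hrq]; exact_mod_cast hn
      linarith
    have hb2 : (r : ℚ) ^ n * (1 + (n : ℚ) * (-(n / r))) ≤ ((r : ℚ) - n) ^ n := by
      calc (r : ℚ) ^ n * (1 + (n : ℚ) * (-(n / r))) ≤ (r : ℚ) ^ n * (1 + -(n / r : ℚ)) ^ n :=
            mul_le_mul_of_nonneg_left hbern (by positivity)
        _ = ((r : ℚ) - n) ^ n := by
            rw [← mul_pow]; congr 1; field_simp; ring
    have hr' : ((n.factorial : ℚ) + 1) * n ^ 2 < r := by exact_mod_cast hr
    have h5 : (n.factorial : ℚ) < (n.factorial + 1) * (1 + (n : ℚ) * (-(n / r))) := by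
      have : ((n.factorial : ℚ) + 1) * n ^ 2 / r < 1 := by
        rw [div_lt_one hrq]; exact hr'
      have e : ((n.factorial : ℚ) + 1) * (1 + (n : ℚ) * (-(n / r)))
          = (n.factorial + 1) - (n.factorial + 1) * n ^ 2 / r := by
        field_simp; ring
      rw [e]; linarith
    calc (n.factorial : ℚ) * (r : ℚ) ^ n
        < ((n.factorial + 1) * (1 + (n : ℚ) * (-(n / r)))) * (r : ℚ) ^ n :=
          mul_lt_mul_of_pos_right h5 (by positivity)
      _ = (n.factorial + 1) * ((r : ℚ) ^ n * (1 + (n : ℚ) * (-(n / r)))) := by ring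
      _ ≤ (n.factorial + 1) * (r.descFactorial n : ℚ) :=
          mul_le_mul_of_nonneg_left (hb2.trans hb) (by positivity)
  have key2 : n.factorial * r ^ n < (n.factorial + 1) * r.descFactorial n := by
    exact_mod_cast key
  rw [hdf] at key2
  have hf : 0 < n.factorial := Nat.factorial_pos n
  have key3 : n.factorial * r ^ n < n.factorial * ((n.factorial + 1) * r.choose n) := by
    calc _ < _ := key2
      _ = _ := by ring
  have key4 := Nat.lt_of_mul_lt_mul_left key3
  have e : (n.factorial + 1) * r.choose n = n.factorial * r.choose n + r.choose n := by ring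
  omega

theorem factorial_eq (n : ℕ) :
    n.factorial = ((n ^ n + 1) * n ^ 2 + n + 1) ^ n /
      ((n ^ n + 1) * n ^ 2 + n + 1).choose n := by
  refine (factorial_eq_aux ?_ ?_).symm
  · have h1 : n.factorial ≤ n ^ n := Nat.factorial_le_pow n
    have h2 : (n.factorial + 1) * n ^ 2 ≤ (n ^ n + 1) * n ^ 2 :=
      Nat.mul_le_mul_right _ (by omega)
    omega
  · omega

theorem factorial_dioph {f : (α → ℕ) → ℕ} (df : DiophFn f) :
    DiophFn fun v => (f v).factorial := by
  have hr : DiophFn fun v : α → ℕ => ((f v) ^ (f v) + 1) * (f v) ^ 2 + f v + 1 :=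
    add_dioph (add_dioph (mul_dioph (add_dioph (pow_dioph df df) (const_dioph 1))
      (pow_dioph df (const_dioph 2))) df) (const_dioph 1)
  have h := div_dioph (pow_dioph hr df) (choose_dioph hr df)
  have e : (fun v : α → ℕ => (f v).factorial) = fun v =>
      (((f v) ^ (f v) + 1) * (f v) ^ 2 + f v + 1) ^ (f v) /
        (((f v) ^ (f v) + 1) * (f v) ^ 2 + f v + 1).choose (f v) :=
    funext fun v => factorial_eq _
  rw [e]; exact h

theorem descFactorial_dioph {f g : (α → ℕ) → ℕ} (df : DiophFn f) (dg : DiophFn g) :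
    DiophFn fun v => (f v).descFactorial (g v) := by
  have e : (fun v : α → ℕ => (f v).descFactorial (g v)) = fun v =>
      (g v).factorial * (f v).choose (g v) :=
    funext fun v => Nat.descFactorial_eq_factorial_mul_choose _ _
  rw [e]; exact mul_dioph (factorial_dioph dg) (choose_dioph df dg)

/-! ### The product of an arithmetic progression -/

theorem prod_le_aux (y T : ℕ) : ∏ k ∈ range y, (1 + (k + 1) * T) ≤ (1 + y * T) ^ y := by
  calc ∏ k ∈ range y, (1 + (k + 1) * T) ≤ ∏ _k ∈ range y, (1 + y * T) := by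
        apply Finset.prod_le_prod' ; intro k hk
        have := Finset.mem_range.1 hk
        have : (k + 1) * T ≤ y * T := Nat.mul_le_mul_right _ (by omega)
        omega
    _ = (1 + y * T) ^ y := by simp

theorem prod_eq_aux {y T : ℕ} (hT : 0 < T) :
    ∏ k ∈ range y, (1 + (k + 1) * T) =
      (T ^ y * (y.factorial * ((T * (1 + y * T) ^ y + 1 - (1 + y * T) ^ y) + y).choose y)) %
        (T * (1 + y * T) ^ y + 1) := by
  set B := (1 + y * T) ^ y with hB
  set M := T * B + 1 with hM
  set q := M - B with hq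
  have hBM : B ≤ M := by
    have : 1 * B ≤ T * B := Nat.mul_le_mul_right _ hT
    omega
  have hqT : q * T ≡ 1 [MOD M] := by
    have h1 : q * T + B * T = M * T := by rw [← add_mul, hq, Nat.sub_add_cancel hBM]
    have h2 : q * T + B * T ≡ 1 + B * T [MOD M] := by
      rw [h1]
      have : 1 + B * T = M := by rw [hM]; ring
      rw [this]
      exact ((Nat.modEq_zero_iff_dvd).2 (Dvd.intro _ rfl)).trans
        ((Nat.modEq_zero_iff_dvd).2 dvd_rfl).symm
    exact Nat.ModEq.add_right_cancel' _ h2
  have h3 : ∏ k ∈ range y, (1 + (k + 1) * T) ≡ T ^ y * ∏ k ∈ range y, (q + (k + 1)) [MOD M] := by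
    have : T ^ y * ∏ k ∈ range y, (q + (k + 1)) = ∏ k ∈ range y, (q * T + (k + 1) * T) := by
      rw [show (T ^ y : ℕ) = ∏ _k ∈ range y, T by simp, ← Finset.prod_mul_distrib]
      exact Finset.prod_congr rfl fun k _ => by ring
    rw [this]
    apply Nat.ModEq.symm
    refine Nat.ModEq.prod ?_
    intro k _
    exact Nat.ModEq.add_right _ hqT
  have h4 : ∏ k ∈ range y, (q + (k + 1)) = y.factorial * (q + y).choose y := by
    rw [← Nat.descFactorial_eq_factorial_mul_choose, Nat.descFactorial_eq_prod_range]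
    rw [← Finset.prod_range_reflect]
    refine Finset.prod_congr rfl fun k hk => ?_
    have := Finset.mem_range.1 hk
    omega
  rw [h4] at h3
  have h5 : ∏ k ∈ range y, (1 + (k + 1) * T) < M := by
    have h6 := prod_le_aux y T
    have : 1 * B ≤ T * B := Nat.mul_le_mul_right _ hT
    omega
  have h7 := h3
  unfold Nat.ModEq at h7
  rw [Nat.mod_eq_of_lt h5] at h7
  exact h7

theorem prod_dioph {f g : (α → ℕ) → ℕ} (df : DiophFn f) (dg : DiophFn g) (hg : ∀ v, 0 < g v) :
    DiophFn fun v => ∏ k ∈ range (f v), (1 + (k + 1) * g v) := by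
  have hB : DiophFn fun v : α → ℕ => (1 + f v * g v) ^ f v :=
    pow_dioph (add_dioph (const_dioph 1) (mul_dioph df dg)) df
  have hM : DiophFn fun v : α → ℕ => g v * (1 + f v * g v) ^ f v + 1 :=
    add_dioph (mul_dioph dg hB) (const_dioph 1)
  have h := mod_dioph (mul_dioph (pow_dioph dg df) (mul_dioph (factorial_dioph df)
    (choose_dioph (add_dioph (sub_dioph hM hB) df) df))) hM
  have e : (fun v : α → ℕ => ∏ k ∈ range (f v), (1 + (k + 1) * g v)) = _ :=
    funext fun v => prod_eq_aux (y := f v) (hg v)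
  rw [e]; exact h

end Pool.Agent.MRDP
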