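import Pool.Agent.MRDP.Core
import Pool.Agent.MRDP.Fact

/-!
# Elimination of a bounded universal quantifier (Davis-Putnam-Robinson)
-/

namespace Pool.Agent.MRDP

open Finset Dioph

/-! ### Elementary facts on `Poly` -/

theorem poly_modEq {α : Type} (p : Poly α) (M : ℕ) {v w : α → ℕ}
    (h : ∀ i, v i ≡ w i [MOD M]) : p v ≡ p w [ZMOD M] := by
  induction p using Poly.induction with
  | H1 i => simpa using (Int.natCast_modEq_iff).2 (h i)
  | H2 n => simp
  | H3 f g hf hg => simpa using hf.sub hg
  | H4 f g hf hg => simpa using hf.mul hg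

theorem poly_bound {α : Type} (p : Poly α) :
    ∃ B : (α → ℕ) → ℕ, DiophFn B ∧ ∀ v w : α → ℕ, (∀ i, v i ≤ w i) → (p v).natAbs ≤ B w := by
  induction p using Poly.induction with
  | H1 i => exact ⟨fun w => w i, proj_dioph i, fun v w h => by simpa using h i⟩
  | H2 n => exact ⟨fun _ => n.natAbs, const_dioph _, fun v w h => by simp⟩
  | H3 f g hf hg =>
    obtain ⟨B, hB, hB'⟩ := hf
    obtain ⟨C, hC, hC'⟩ := hg
    refine ⟨fun w => B w + C w, add_dioph hB hC, fun v w h => ?_⟩
    have h1 := hB' v w h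
    have h2 := hC' v w h
    simp only [Poly.sub_apply]
    omega
  | H4 f g hf hg =>
    obtain ⟨B, hB, hB'⟩ := hf
    obtain ⟨C, hC, hC'⟩ := hg
    refine ⟨fun w => B w * C w, mul_dioph hB hC, fun v w h => ?_⟩
    simp only [Poly.mul_apply, Int.natAbs_mul]
    exact Nat.mul_le_mul (hB' v w h) (hC' v w h)

theorem poly_finite_dep {α β : Type} (p : Poly (α ⊕ β)) :
    ∃ s : Finset β, ∀ (v : α → ℕ) (t t' : β → ℕ), (∀ b ∈ s, t b = t' b) →
      p (Sum.elim v t) = p (Sum.elim v t') := by
  classical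
  induction p using Poly.induction with
  | H1 i =>
    rcases i with a | b
    · exact ⟨∅, fun v t t' _ => by simp⟩
    · exact ⟨{b}, fun v t t' h => by simpa using h b (by simp)⟩
  | H2 n => exact ⟨∅, fun v t t' _ => by simp⟩
  | H3 f g hf hg =>
    obtain ⟨s, hs⟩ := hf
    obtain ⟨s', hs'⟩ := hg
    refine ⟨s ∪ s', fun v t t' h => ?_⟩
    simp only [Poly.sub_apply]
    rw [hs v t t' fun b hb => h b (Finset.mem_union_left _ hb),
      hs' v t t' fun b hb => h b (Finset.mem_union_right _ hb)]
  | H4 f g hf hg =>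
    obtain ⟨s, hs⟩ := hf
    obtain ⟨s', hs'⟩ := hg
    refine ⟨s ∪ s', fun v t t' h => ?_⟩
    simp only [Poly.mul_apply]
    rw [hs v t t' fun b hb => h b (Finset.mem_union_left _ hb),
      hs' v t t' fun b hb => h b (Finset.mem_union_right _ hb)]

/-- Every Diophantine set has a description with finitely many unknowns. -/
theorem exists_fin_dummies {α : Type} {S : Set (α → ℕ)} (h : Dioph S) :
    ∃ (m : ℕ) (p : Poly (α ⊕ Fin m)), ∀ v, v ∈ S ↔ ∃ t : Fin m → ℕ, p (Sum.elim v t) = 0 := by
  classical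
  obtain ⟨β, p, hp⟩ := h
  obtain ⟨s, hs⟩ := poly_finite_dep p
  let f : β → Fin (s.card + 1) := fun b =>
    if h : b ∈ s then (s.equivFin ⟨b, h⟩).castSucc else Fin.last _
  refine ⟨s.card + 1, p.map (Sum.map id f), fun v => ?_⟩
  rw [hp v]
  constructor
  · rintro ⟨t, ht⟩
    let t' : Fin (s.card + 1) → ℕ := fun i =>
      if h : i.val < s.card then t (s.equivFin.symm ⟨i.val, h⟩) else 0
    refine ⟨t', ?_⟩
    rw [Poly.map_apply]
    have e : (Sum.elim v t') ∘ (Sum.map id f) = Sum.elim v (t' ∘ f) := by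
      funext x; rcases x with x | x <;> rfl
    rw [e, hs v (t' ∘ f) t]
    · exact ht
    · intro b hb
      have hfb : f b = (s.equivFin ⟨b, hb⟩).castSucc := by simp [f, hb]
      have hlt : (f b).val < s.card := by rw [hfb]; simp
      simp only [Function.comp, t', dif_pos hlt]
      congr 1
      have hval : (f b).val = (s.equivFin ⟨b, hb⟩).val := by rw [hfb]; rfl
      have : (⟨(f b).val, hlt⟩ : Fin s.card) = s.equivFin ⟨b, hb⟩ := Fin.ext hval
      rw [this]; simp
  · rintro ⟨t, ht⟩
    refine ⟨t ∘ f, ?_⟩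
    rw [Poly.map_apply] at ht
    have e : (Sum.elim v t) ∘ (Sum.map id f) = Sum.elim v (t ∘ f) := by
      funext x; rcases x with x | x <;> rfl
    rwa [e] at ht

theorem forall_fin_dioph {α : Type} {m : ℕ} {S : Fin m → Set (α → ℕ)} (h : ∀ i, Dioph (S i)) :
    Dioph {v | ∀ i, v ∈ S i} := by
  refine Dioph.ext (DiophList.forall (List.ofFn S) ?_) fun v => ?_
  · rw [List.forall_iff_forall_mem]
    intro x hx
    obtain ⟨i, rfl⟩ := (List.mem_ofFn' S x).1 hx
    exact h i
  · simp only [Set.mem_ofPred_eq, List.forall_iff_forall_mem]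
    constructor
    · intro h i; exact h _ ((List.mem_ofFn' S _).2 ⟨i, rfl⟩)
    · intro h x hx
      obtain ⟨i, rfl⟩ := (List.mem_ofFn' S x).1 hx
      exact h i

/-- Bounded universal quantification, the bound being a variable. -/
theorem ball_dioph_aux {α : Type} {S : Set (Option α → ℕ)} (h : Dioph S) :
    Dioph {v : Option α → ℕ | ∀ k, k < v none → (Option.elim' k (v ∘ some)) ∈ S} := by
  obtain ⟨m, p, hp⟩ := exists_fin_dummies h
  obtain ⟨B, hB, hB'⟩ := poly_bound p
  -- the big index type: `Option α` for `v`, then `u`, `c`, and `a : Fin m → ℕ`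
  let Γ := Option α ⊕ Option (Option (Fin m))
  let yv : Γ := Sum.inl none
  let uv : Γ := Sum.inr none
  let cv : Γ := Sum.inr (some none)
  let av : Fin m → Γ := fun i => Sum.inr (some (some i))
  -- the bounding function
  let gB : Option α ⊕ Fin m → Γ := Sum.elim (fun o => Sum.inl o) (fun _ => uv)
  have hBw : DiophFn fun w : Γ → ℕ => B (w ∘ gB) := reindex_diophFn gB hB
  let Q : (Γ → ℕ) → ℕ := fun w => B (w ∘ gB) + w yv
  have hQ : DiophFn Q := add_dioph hBw (proj_dioph yv)
  have hT : DiophFn fun w : Γ → ℕ => (Q w).factorial := factorial_dioph hQ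
  have hM : DiophFn fun w : Γ → ℕ => ∏ k ∈ range (w yv), (1 + (k + 1) * (Q w).factorial) :=
    prod_dioph (proj_dioph yv) hT fun w => Nat.factorial_pos _
  let gP : Option α ⊕ Fin m → Γ := Sum.elim (Option.elim' cv (fun a => Sum.inl (some a))) av
  have hP : DiophFn fun w : Γ → ℕ => (p (w ∘ gP)).natAbs :=
    reindex_diophFn gP (abs_poly_dioph p)
  have h1 : ∀ i : Fin m, Dioph {w : Γ → ℕ |
      (∏ k ∈ range (w yv), (1 + (k + 1) * (Q w).factorial)) ∣
        (w (av i)).descFactorial (w uv + 1)} := fun i =>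
    dvd_dioph hM (descFactorial_dioph (proj_dioph (av i)) (add_dioph (proj_dioph uv)
      (const_dioph 1)))
  have h2 : Dioph {w : Γ → ℕ |
      (∏ k ∈ range (w yv), (1 + (k + 1) * (Q w).factorial)) ∣
        1 + (w cv + 1) * (Q w).factorial} :=
    dvd_dioph hM (add_dioph (const_dioph 1) (mul_dioph (add_dioph (proj_dioph cv)
      (const_dioph 1)) hT))
  have h3 : Dioph {w : Γ → ℕ |
      (∏ k ∈ range (w yv), (1 + (k + 1) * (Q w).factorial)) ∣ (p (w ∘ gP)).natAbs} :=
    dvd_dioph hM hP
  have h4 := ex_dioph ((forall_fin_dioph h1).inter (h2.inter h3))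
  refine Dioph.ext h4 fun v => ?_
  simp only [Set.mem_ofPred_eq, Set.mem_inter_iff]
  -- now the combinatorial equivalence
  have key : ∀ u : ℕ, (∀ k, k < v none → ∃ t : Fin m → ℕ, (∀ i, t i ≤ u) ∧
      p (Sum.elim (Option.elim' k (v ∘ some)) t) = 0) ↔
      ∃ (c : ℕ) (a : Fin m → ℕ),
        (∀ i, (∏ k ∈ range (v none), (1 + (k + 1) *
          (B (Sum.elim v fun _ => u) + v none).factorial)) ∣ (a i).descFactorial (u + 1)) ∧
        (∏ k ∈ range (v none), (1 + (k + 1) *
          (B (Sum.elim v fun _ => u) + v none).factorial)) ∣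
            1 + (c + 1) * (B (Sum.elim v fun _ => u) + v none).factorial ∧
        (∏ k ∈ range (v none), (1 + (k + 1) *
          (B (Sum.elim v fun _ => u) + v none).factorial)) ∣
          (p (Sum.elim (Option.elim' c (v ∘ some)) a)).natAbs := by
    intro u
    refine core (fun k t => p (Sum.elim (Option.elim' k (v ∘ some)) t)) ?_ ?_ ?_
    · intro M k k' t t' hk ht
      apply poly_modEq
      rintro ((_ | a) | i)
      · exact hk
      · exact Nat.ModEq.refl _
      · exact ht _
    · intro k hk t ht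
      refine (hB' _ (Sum.elim v fun _ => u) ?_).trans (Nat.le_add_right _ _)
      rintro ((⟨⟩ | a) | i)
      · exact hk.le
      · exact le_rfl
      · exact ht i
    · exact Nat.le_add_left _ _
  have fwd : (∀ k, k < v none → (Option.elim' k (v ∘ some)) ∈ S) ↔
      ∃ u : ℕ, (∀ k, k < v none → ∃ t : Fin m → ℕ, (∀ i, t i ≤ u) ∧
      p (Sum.elim (Option.elim' k (v ∘ some)) t) = 0) := by
    constructor
    · intro h
      have h' : ∀ k, k < v none → ∃ t : Fin m → ℕ,
          p (Sum.elim (Option.elim' k (v ∘ some)) t) = 0 := fun k hk => (hp _).1 (h k hk)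
      choose! t ht using h'
      refine ⟨∑ k ∈ range (v none), ∑ i, t k i, fun k hk => ⟨t k, fun i => ?_, ht k hk⟩⟩
      calc t k i ≤ ∑ i, t k i := Finset.single_le_sum (fun _ _ => Nat.zero_le _)
            (Finset.mem_univ i)
        _ ≤ _ := Finset.single_le_sum (f := fun k => ∑ i, t k i) (fun _ _ => Nat.zero_le _)
            (Finset.mem_range.2 hk)
    · rintro ⟨u, hu⟩ k hk
      obtain ⟨t, _, ht⟩ := hu k hk
      exact (hp _).2 ⟨t, ht⟩
  rw [fwd]
  have e1 : ∀ x : Option (Option (Fin m)) → ℕ,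
      (Sum.elim v x) ∘ gB = Sum.elim v fun _ => x none := by
    intro x; funext i; rcases i with i | i <;> rfl
  have e2 : ∀ x : Option (Option (Fin m)) → ℕ, (Sum.elim v x) ∘ gP =
      Sum.elim (Option.elim' (x (some none)) (v ∘ some)) fun i => x (some (some i)) := by
    intro x; funext i; rcases i with (⟨⟩ | i) | i <;> rfl
  constructor
  · rintro ⟨x, hx1, hx2, hx3⟩
    refine ⟨x none, (key _).2 ⟨x (some none), fun i => x (some (some i)), ?_, ?_, ?_⟩⟩
    · intro i
      have := hx1 i
      change (∏ k ∈ range (v none), (1 + (k + 1) *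
        (B (Sum.elim v x ∘ gB) + v none).factorial)) ∣ _ at this
      rw [e1] at this
      exact this
    · have := hx2
      change (∏ k ∈ range (v none), (1 + (k + 1) *
        (B (Sum.elim v x ∘ gB) + v none).factorial)) ∣
          1 + (x (some none) + 1) * (B (Sum.elim v x ∘ gB) + v none).factorial at this
      rw [e1] at this
      exact this
    · have := hx3
      change (∏ k ∈ range (v none), (1 + (k + 1) *
        (B (Sum.elim v x ∘ gB) + v none).factorial)) ∣ (p (Sum.elim v x ∘ gP)).natAbs at this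
      rw [e1, e2] at this
      exact this
  · rintro ⟨u, hu⟩
    obtain ⟨c, a, h1, h2, h3⟩ := (key u).1 hu
    set x : Option (Option (Fin m)) → ℕ := Option.elim' u (Option.elim' c a) with hx
    refine ⟨x, ?_, ?_, ?_⟩
    · intro i
      change (∏ k ∈ range (v none), (1 + (k + 1) *
        (B (Sum.elim v x ∘ gB) + v none).factorial)) ∣ _
      rw [e1]
      exact h1 i
    · change (∏ k ∈ range (v none), (1 + (k + 1) *
        (B (Sum.elim v x ∘ gB) + v none).factorial)) ∣
          1 + (x (some none) + 1) * (B (Sum.elim v x ∘ gB) + v none).factorial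
      rw [e1]
      exact h2
    · change (∏ k ∈ range (v none), (1 + (k + 1) *
        (B (Sum.elim v x ∘ gB) + v none).factorial)) ∣ (p (Sum.elim v x ∘ gP)).natAbs
      rw [e1, e2]
      exact h3

/-- Diophantine sets are closed under universal quantification bounded by a Diophantine
function. -/
theorem ball_dioph {α : Type} {S : Set (Option α → ℕ)} (h : Dioph S) {f : (α → ℕ) → ℕ}
    (df : DiophFn f) : Dioph {v : α → ℕ | ∀ k, k < f v → (Option.elim' k v) ∈ S} :=
  Dioph.ext (diophFn_comp1 (ball_dioph_aux h) df) fun _ => Iff.rfl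

end Pool.Agent.MRDP
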