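import Mathlib

/-!
# Number-theoretic core of the Davis-Putnam-Robinson bounded quantifier theorem
-/

namespace Pool.Agent.MRDP

open Finset

theorem prime_gt_of_dvd {Q k p : ℕ} (hp : p.Prime) (h : p ∣ 1 + (k + 1) * Q.factorial) :
    Q < p := by
  by_contra hle
  have h1 : p ∣ Q.factorial := (hp.dvd_factorial).2 (not_lt.1 hle)
  have h2 : p ∣ (k + 1) * Q.factorial := Dvd.dvd.mul_left h1 _
  have h3 : p ∣ 1 := (Nat.dvd_add_left h2).1 h
  exact hp.one_lt.ne' (Nat.dvd_one.1 h3)

theorem coprime_aux {Q i j : ℕ} (hij : i < j) (hj : j ≤ Q) :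
    Nat.Coprime (1 + (i + 1) * Q.factorial) (1 + (j + 1) * Q.factorial) := by
  refine Nat.Coprime.symm (Nat.coprime_of_dvd fun p hp h1 h2 => ?_)
  have hgt := prime_gt_of_dvd hp h1
  have h3 : p ∣ (1 + (j + 1) * Q.factorial) - (1 + (i + 1) * Q.factorial) :=
    Nat.dvd_sub h1 h2
  have h4 : (1 + (j + 1) * Q.factorial) - (1 + (i + 1) * Q.factorial)
      = (j - i) * Q.factorial := by
    obtain ⟨d, rfl⟩ := Nat.exists_eq_add_of_lt hij
    have : i + d + 1 - i = d + 1 := by omega
    rw [this]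
    have : 1 + (i + d + 1 + 1) * Q.factorial
      = (1 + (i + 1) * Q.factorial) + (d + 1) * Q.factorial := by ring
    rw [this, Nat.add_sub_cancel_left]
  rw [h4] at h3
  rcases (hp.dvd_mul).1 h3 with h5 | h5
  · have : p ≤ j - i := Nat.le_of_dvd (by omega) h5
    omega
  · have := (hp.dvd_factorial).1 h5
    omega

theorem pairwise_coprime {Q y : ℕ} (hy : y ≤ Q) :
    Set.Pairwise (↑(Finset.range y) : Set ℕ)
      (Function.onFun Nat.Coprime fun k => 1 + (k + 1) * Q.factorial) := by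
  intro i hi j hj hne
  simp only [Finset.coe_range, Set.mem_Iio] at hi hj
  rcases lt_or_gt_of_ne hne with h | h
  · exact coprime_aux h (by omega)
  · exact (coprime_aux h (by omega)).symm

/-- The number-theoretic heart of the elimination of a bounded universal quantifier. -/
theorem core {m y Q u : ℕ} (P : ℕ → (Fin m → ℕ) → ℤ)
    (hcong : ∀ (M k k' : ℕ) (t t' : Fin m → ℕ), k ≡ k' [MOD M] → (∀ i, t i ≡ t' i [MOD M]) →
      P k t ≡ P k' t' [ZMOD M])
    (hbound : ∀ k, k < y → ∀ t : Fin m → ℕ, (∀ i, t i ≤ u) → (P k t).natAbs ≤ Q)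
    (hy : y ≤ Q) :
    (∀ k, k < y → ∃ t : Fin m → ℕ, (∀ i, t i ≤ u) ∧ P k t = 0) ↔
      ∃ (c : ℕ) (a : Fin m → ℕ),
        (∀ i, (∏ k ∈ range y, (1 + (k + 1) * Q.factorial)) ∣ (a i).descFactorial (u + 1)) ∧
        (∏ k ∈ range y, (1 + (k + 1) * Q.factorial)) ∣ 1 + (c + 1) * Q.factorial ∧
        (∏ k ∈ range y, (1 + (k + 1) * Q.factorial)) ∣ (P c a).natAbs := by
  constructor
  · intro h
    choose! t ht using h
    let s : ℕ → ℕ := fun k => 1 + (k + 1) * Q.factorial
    have hs : ∀ k ∈ range y, s k ≠ 0 := fun k _ => by simp [s]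
    have hco := pairwise_coprime (Q := Q) hy
    obtain ⟨c, hc⟩ := Nat.chineseRemainderOfFinset (fun k => k) s (range y) hs hco
    have ha : ∀ i : Fin m, ∃ a : ℕ, ∀ k ∈ range y, a ≡ t k i [MOD s k] := fun i =>
      let ⟨a, ha⟩ := Nat.chineseRemainderOfFinset (fun k => t k i) s (range y) hs hco
      ⟨a, ha⟩
    choose a ha using ha
    have hprod : ∀ N : ℕ, (∀ k ∈ range y, s k ∣ N) → (∏ k ∈ range y, s k) ∣ N := by
      intro N hN
      refine Finset.prod_dvd_of_isRelPrime ?_ hN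
      intro i hi j hj hne
      exact Nat.coprime_iff_isRelPrime.1 (hco hi hj hne)
    refine ⟨c, a, fun i => hprod _ fun k hk => ?_, hprod _ fun k hk => ?_, hprod _ fun k hk => ?_⟩
    · have hk' := Finset.mem_range.1 hk
      have h1 := ha i k hk
      have h2 : t k i ≤ u := (ht k hk').1 i
      rcases le_or_gt (t k i) (a i) with h3 | h3
      · have h4 : s k ∣ a i - t k i := (Nat.modEq_iff_dvd' h3).1 h1.symm
        refine h4.trans ?_
        rw [Nat.descFactorial_eq_prod_range]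
        exact Finset.dvd_prod_of_mem (fun j => a i - j) (Finset.mem_range.2 (by omega))
      · have : (a i).descFactorial (u + 1) = 0 :=
          Nat.descFactorial_eq_zero_iff_lt.2 (by omega)
        rw [this]; exact dvd_zero _
    · have h1 : c ≡ k [MOD s k] := hc k hk
      have h2 : 1 + (c + 1) * Q.factorial ≡ 1 + (k + 1) * Q.factorial [MOD s k] :=
        Nat.ModEq.add_left _ (Nat.ModEq.mul_right _ (Nat.ModEq.add_right _ h1))
      exact (Nat.modEq_zero_iff_dvd).1 (h2.trans (Nat.modEq_zero_iff_dvd.2 dvd_rfl))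
    · have hk' := Finset.mem_range.1 hk
      have h1 : P c a ≡ P k (t k) [ZMOD s k] :=
        hcong _ _ _ _ _ (hc k hk) fun i => ha i k hk
      rw [(ht k hk').2] at h1
      have h2 : ((s k : ℕ) : ℤ) ∣ P c a := (Int.modEq_zero_iff_dvd).1 h1
      exact Int.natCast_dvd.1 h2
  · rintro ⟨c, a, ha, hc, hP⟩ k hk
    have hmem : k ∈ range y := Finset.mem_range.2 hk
    have hdvd : 1 + (k + 1) * Q.factorial ∣ ∏ k ∈ range y, (1 + (k + 1) * Q.factorial) :=
      Finset.dvd_prod_of_mem (fun k => 1 + (k + 1) * Q.factorial) hmem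
    have hne1 : 1 + (k + 1) * Q.factorial ≠ 1 := by
      have := Nat.factorial_pos Q
      have : 0 < (k + 1) * Q.factorial := by positivity
      omega
    obtain ⟨p, hp, hpd⟩ := Nat.exists_prime_and_dvd hne1
    have hgt := prime_gt_of_dvd hp hpd
    have hpc : c ≡ k [MOD p] := by
      have h1 : p ∣ 1 + (c + 1) * Q.factorial := (hpd.trans hdvd).trans hc
      have h2 : 1 + (c + 1) * Q.factorial ≡ 1 + (k + 1) * Q.factorial [MOD p] :=
        ((Nat.modEq_zero_iff_dvd).2 h1).trans ((Nat.modEq_zero_iff_dvd).2 hpd).symm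
      have h3 : (c + 1) * Q.factorial ≡ (k + 1) * Q.factorial [MOD p] :=
        Nat.ModEq.add_left_cancel' _ h2
      have h4 : Nat.gcd p Q.factorial = 1 := by
        rw [Nat.Prime.coprime_iff_not_dvd hp |>.2]
        intro h; have := (hp.dvd_factorial).1 h; omega
      have h5 : c + 1 ≡ k + 1 [MOD p] := Nat.ModEq.cancel_right_of_coprime h4 h3
      exact Nat.ModEq.add_right_cancel' _ h5
    have hai : ∀ i, ∃ j, j ≤ u ∧ a i ≡ j [MOD p] := by
      intro i
      rcases le_or_gt (a i) u with h1 | h1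
      · exact ⟨a i, h1, rfl⟩
      · have h2 : p ∣ (a i).descFactorial (u + 1) := (hpd.trans hdvd).trans (ha i)
        rw [Nat.descFactorial_eq_prod_range] at h2
        obtain ⟨j, hj, hpj⟩ := (hp.prime.dvd_finsetProd_iff _).1 h2
        have hj' := Finset.mem_range.1 hj
        exact ⟨j, by omega, ((Nat.modEq_iff_dvd' (by omega)).2 hpj).symm⟩
    choose t ht using hai
    refine ⟨t, fun i => (ht i).1, ?_⟩
    have h1 : P c a ≡ P k t [ZMOD p] := hcong _ _ _ _ _ hpc fun i => (ht i).2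
    have h2 : (p : ℤ) ∣ P c a := Int.natCast_dvd.2 ((hpd.trans hdvd).trans hP)
    have h3 : (p : ℤ) ∣ P k t := (Int.modEq_zero_iff_dvd).1 (h1.symm.trans
      ((Int.modEq_zero_iff_dvd).2 h2))
    have h4 := hbound k hk t fun i => (ht i).1
    have h5 : p ∣ (P k t).natAbs := Int.natCast_dvd.1 h3
    have h6 : (P k t).natAbs = 0 := Nat.eq_zero_of_dvd_of_lt h5 (by omega)
    exact Int.natAbs_eq_zero.1 h6

end Pool.Agent.MRDP
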