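import Pool.Agent.MRDP.Bounded

/-!
# Recursive functions are Diophantine
-/

namespace Pool.Agent.MRDP

open Finset Dioph

/-- Composition of a Diophantine function of `N` variables with Diophantine functions. -/
theorem diophFn_comp_fin {Γ : Type} {N : ℕ} {F : (Fin N → ℕ) → ℕ} (hF : DiophFn F)
    {φ : Fin N → (Γ → ℕ) → ℕ} (hφ : ∀ i, DiophFn (φ i)) :
    DiophFn fun w => F fun i => φ i w := by
  let S1 : Fin N → Set (Option Γ ⊕ Fin N → ℕ) := fun i =>
    {w | φ i (fun x => w (Sum.inl (some x))) = w (Sum.inr i)}
  have h1 : ∀ i, Dioph (S1 i) := fun i =>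
    Dioph.ext (reindex_dioph (Option Γ ⊕ Fin N)
      (Option.elim' (Sum.inr i) fun x => Sum.inl (some x)) (hφ i)) fun w => Iff.rfl
  have h2 : Dioph {w : Option Γ ⊕ Fin N → ℕ |
      F (fun i => w (Sum.inr i)) = w (Sum.inl none)} :=
    Dioph.ext (reindex_dioph (Option Γ ⊕ Fin N)
      (Option.elim' (Sum.inl none) fun x => Sum.inr x) hF) fun w => Iff.rfl
  have h3 := ex_dioph ((forall_fin_dioph h1).inter h2)
  refine Dioph.ext h3 fun v => ?_
  constructor
  · rintro ⟨t, ht1, ht2⟩
    have h4 : (fun i => φ i (v ∘ some)) = t := funext fun i => ht1 i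
    change F (fun i => φ i (v ∘ some)) = v none
    rw [h4]; exact ht2
  · intro h
    exact ⟨fun i => φ i (v ∘ some), fun i => rfl, h⟩

theorem beta_dioph {Γ : Type} {a b k : (Γ → ℕ) → ℕ} (ha : DiophFn a) (hb : DiophFn b)
    (hk : DiophFn k) : DiophFn fun w => a w % ((k w + 1) * b w + 1) :=
  mod_dioph ha (add_dioph (mul_dioph (add_dioph hk (const_dioph 1)) hb) (const_dioph 1))

theorem exists_beta (f : ℕ → ℕ) (N : ℕ) :
    ∃ a b : ℕ, ∀ k, k ≤ N → a % ((k + 1) * b + 1) = f k := by
  let l : List ℕ := (List.range (N + 1)).map f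
  refine ⟨(Nat.unbeta l).unpair.1, (Nat.unbeta l).unpair.2, fun k hk => ?_⟩
  have hlen : k < l.length := by simp [l]; omega
  have h := Nat.beta_unbeta_coe l ⟨k, hlen⟩
  have h2 : l[k] = f k := by simp [l]
  rw [Nat.beta] at h
  rw [← h2]
  exact h

theorem ofFn_cons {n : ℕ} (y : ℕ) (t : Fin n → ℕ) :
    List.Vector.ofFn (Fin.cons y t : Fin (n + 1) → ℕ) = y ::ᵥ List.Vector.ofFn t := rfl

theorem primrec_dioph {n : ℕ} {f : List.Vector ℕ n → ℕ} (hf : Nat.Primrec' f) :
    DiophFn fun v : Fin n → ℕ => f (List.Vector.ofFn v) := by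
  induction hf with
  | zero => exact const_dioph 0
  | succ => exact add_dioph (proj_dioph (0 : Fin 1)) (const_dioph 1)
  | @get n i =>
    have : (fun v : Fin n → ℕ => (List.Vector.ofFn v).get i) = fun v => v i :=
      funext fun v => by simp
    rw [this]; exact proj_dioph i
  | @comp m n f g _ _ hf hg =>
    exact diophFn_comp_fin (F := fun v : Fin n → ℕ => f (List.Vector.ofFn v)) hf
      (φ := fun i v => g i (List.Vector.ofFn v)) hg
  | @prec n f g _ _ hf hg =>
    -- index type: `Option (Fin (n+1))` (arguments and value) and two unknowns `a`, `b`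
    let Γ := Option (Fin (n + 1)) ⊕ Bool
    let av : Γ := Sum.inr true
    let bv : Γ := Sum.inr false
    let arg : Fin (n + 1) → Γ := fun i => Sum.inl (some i)
    -- `f` of the tail
    have hft : DiophFn fun w : Γ → ℕ => f (List.Vector.ofFn fun i : Fin n => w (arg i.succ)) :=
      diophFn_comp_fin (F := fun v : Fin n → ℕ => f (List.Vector.ofFn v)) hf
        (φ := fun i w => w (arg i.succ)) fun i => proj_dioph _
    have h1 : Dioph {w : Γ → ℕ | w av % ((0 + 1) * w bv + 1) =
        f (List.Vector.ofFn fun i : Fin n => w (arg i.succ))} :=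
      eq_dioph (beta_dioph (proj_dioph av) (proj_dioph bv) (const_dioph 0)) hft
    -- the recursion step, with an extra variable `k = none`
    let φ : Fin (n + 2) → (Option Γ → ℕ) → ℕ := fun i =>
      Fin.cases (fun w => w none) (fun i =>
        Fin.cases (fun w => w (some av) % ((w none + 1) * w (some bv) + 1))
          (fun i w => w (some (arg i.succ))) i) i
    have hφ : ∀ i, DiophFn (φ i) := by
      intro i
      refine Fin.cases ?_ (fun i => ?_) i
      · exact proj_dioph none
      · refine Fin.cases ?_ (fun i => ?_) i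
        · exact beta_dioph (proj_dioph _) (proj_dioph _) (proj_dioph _)
        · exact proj_dioph _
    have hgt : DiophFn fun w : Option Γ → ℕ => g (List.Vector.ofFn fun i => φ i w) :=
      diophFn_comp_fin (F := fun v : Fin (n + 2) → ℕ => g (List.Vector.ofFn v)) hg hφ
    have h2 : Dioph {w : Option Γ → ℕ |
        w (some av) % ((w none + 1 + 1) * w (some bv) + 1) =
          g (List.Vector.ofFn fun i => φ i w)} :=
      eq_dioph (beta_dioph (proj_dioph _) (proj_dioph _)
        (add_dioph (proj_dioph none) (const_dioph 1))) hgt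
    have h3 := ball_dioph h2 (proj_dioph (arg 0))
    have h4 : Dioph {w : Γ → ℕ | w av % ((w (arg 0) + 1) * w bv + 1) = w (Sum.inl none)} :=
      eq_dioph (beta_dioph (proj_dioph av) (proj_dioph bv) (proj_dioph (arg 0)))
        (proj_dioph _)
    have h5 := ex_dioph (h1.inter (h3.inter h4))
    refine Dioph.ext h5 fun v => ?_
    -- unfold the meaning of both sides
    set args : Fin (n + 1) → ℕ := fun i => v (some i) with hargs
    set tl : List.Vector ℕ n := List.Vector.ofFn fun i => args i.succ with htl
    set R : ℕ → ℕ := fun k => Nat.rec (f tl) (fun y IH => g (y ::ᵥ IH ::ᵥ tl)) k with hR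
    have hR0 : R 0 = f tl := rfl
    have hRs : ∀ k, R (k + 1) = g (k ::ᵥ R k ::ᵥ tl) := fun k => rfl
    have hgoal : (v ∈ {v : Option (Fin (n + 1)) → ℕ |
        (fun v : Fin (n + 1) → ℕ => Nat.rec (f (List.Vector.ofFn v).tail)
          (fun y IH => g (y ::ᵥ IH ::ᵥ (List.Vector.ofFn v).tail)) (List.Vector.ofFn v).head)
          (v ∘ some) = v none}) ↔ R (args 0) = v none := by
      have e1 : (List.Vector.ofFn (v ∘ some)).tail = tl := by
        simp [htl, hargs, Function.comp_def]
      have e2 : (List.Vector.ofFn (v ∘ some)).head = args 0 := by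
        simp [hargs]
      change (Nat.rec (f (List.Vector.ofFn (v ∘ some)).tail)
          (fun y IH => g (y ::ᵥ IH ::ᵥ (List.Vector.ofFn (v ∘ some)).tail))
          (List.Vector.ofFn (v ∘ some)).head : ℕ) = v none ↔ _
      rw [e1, e2]
    refine Iff.trans ?_ hgoal.symm
    have hstep : ∀ (t : Bool → ℕ) (k : ℕ),
        (fun i => φ i (Option.elim' k (Sum.elim v t))) =
          Fin.cons k (Fin.cons (t true % ((k + 1) * t false + 1)) fun i => args i.succ) := by
      intro t k
      funext i
      refine Fin.cases ?_ (fun i => ?_) i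
      · rfl
      · refine Fin.cases ?_ (fun i => ?_) i
        · rfl
        · rfl
    constructor
    · rintro ⟨t, ht1, ht2, ht3⟩
      have h1' : t true % ((0 + 1) * t false + 1) = f tl := ht1
      have h2' : ∀ k, k < args 0 → t true % ((k + 1 + 1) * t false + 1) =
          g (k ::ᵥ (t true % ((k + 1) * t false + 1)) ::ᵥ tl) := by
        intro k hk
        have := ht2 k hk
        change t true % ((k + 1 + 1) * t false + 1) =
          g (List.Vector.ofFn fun i => φ i (Option.elim' k (Sum.elim v t))) at this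
        rw [this, hstep, ofFn_cons, ofFn_cons]
      have h3' : t true % ((args 0 + 1) * t false + 1) = v none := ht3
      have h4' : ∀ k, k ≤ args 0 → t true % ((k + 1) * t false + 1) = R k := by
        intro k
        induction k with
        | zero => intro _; rw [h1', hR0]
        | succ k ih =>
          intro hk
          rw [h2' k (by omega), ih (by omega), hRs]
      rw [← h3', h4' _ le_rfl]
    · intro h
      obtain ⟨a, b, hab⟩ := exists_beta R (args 0)
      refine ⟨fun x => if x then a else b, ?_, ?_, ?_⟩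
      · have := hab 0 (Nat.zero_le _)
        change a % ((0 + 1) * b + 1) = f tl
        rw [this, hR0]
      · intro k hk
        have hk' : k < args 0 := hk
        change a % ((k + 1 + 1) * b + 1) =
          g (List.Vector.ofFn fun i => φ i (Option.elim' k (Sum.elim v fun x => if x then a else b)))
        rw [hstep, ofFn_cons, ofFn_cons]
        change a % ((k + 1 + 1) * b + 1) = g (k ::ᵥ (a % ((k + 1) * b + 1)) ::ᵥ tl)
        rw [hab (k + 1) hk', hab k hk'.le, hRs]
      · change a % ((args 0 + 1) * b + 1) = v none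
        rw [hab _ le_rfl, h]

theorem mem_mOfFn {n : ℕ} {g : Fin n → Part ℕ} {w : List.Vector ℕ n} :
    w ∈ (List.Vector.mOfFn g : Part (List.Vector ℕ n)) ↔ ∀ i, w.get i ∈ g i := by
  induction n with
  | zero =>
    constructor
    · intro _ i; exact i.elim0
    · intro _
      have : w = List.Vector.nil := by
        ext i; exact i.elim0
      rw [this]
      exact Part.mem_some _
  | succ n ih =>
    constructor
    · intro h
      obtain ⟨a, ha, h⟩ := Part.mem_bind_iff.1 h
      obtain ⟨w', hw', h⟩ := Part.mem_bind_iff.1 h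
      have hw : w = a ::ᵥ w' := Part.mem_some_iff.1 h
      subst hw
      intro i
      refine Fin.cases ?_ (fun i => ?_) i
      · simpa using ha
      · simpa using (ih.1 hw') i
    · intro h
      refine Part.mem_bind_iff.2 ⟨w.get 0, h 0, Part.mem_bind_iff.2 ⟨w.tail, ?_, ?_⟩⟩
      · refine ih.2 fun i => ?_
        rw [List.Vector.get_tail_succ]; exact h i.succ
      · refine Part.mem_some_iff.2 ?_
        conv_lhs => rw [← List.Vector.cons_head_tail w]
        rw [List.Vector.get_zero]

/-- The graph of a recursive (not necessarily total) function (vector version) is Diophantine. -/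
theorem partrec'_dioph {n : ℕ} {f : List.Vector ℕ n →. ℕ} (hf : Nat.Partrec' f) :
    Dioph {v : Option (Fin n) → ℕ | v none ∈ f (List.Vector.ofFn (v ∘ some))} := by
  induction hf with
  | @prim n f hf =>
    refine Dioph.ext (primrec_dioph hf) fun v => ?_
    change f (List.Vector.ofFn (v ∘ some)) = v none ↔ v none ∈ Part.some (f (List.Vector.ofFn (v ∘ some)))
    rw [Part.mem_some_iff]; exact eq_comm
  | @comp m n f g _ _ hf hg =>
    let Γ := Option (Fin m) ⊕ Fin n
    have h1 : ∀ i : Fin n, Dioph {w : Γ → ℕ |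
        w (Sum.inr i) ∈ g i (List.Vector.ofFn fun j => w (Sum.inl (some j)))} := fun i =>
      Dioph.ext (reindex_dioph Γ (Option.elim' (Sum.inr i) fun x => Sum.inl (some x)) (hg i))
        fun w => Iff.rfl
    have h2 : Dioph {w : Γ → ℕ |
        w (Sum.inl none) ∈ f (List.Vector.ofFn fun j => w (Sum.inr j))} :=
      Dioph.ext (reindex_dioph Γ (Option.elim' (Sum.inl none) fun x => Sum.inr x) hf)
        fun w => Iff.rfl
    refine Dioph.ext (ex_dioph ((forall_fin_dioph h1).inter h2)) fun v => ?_
    constructor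
    · rintro ⟨t, ht1, ht2⟩
      refine Part.mem_bind_iff.2 ⟨List.Vector.ofFn t, mem_mOfFn.2 fun i => ?_, ht2⟩
      rw [List.Vector.get_ofFn]; exact ht1 i
    · intro h
      obtain ⟨w, hw, h⟩ := Part.mem_bind_iff.1 h
      refine ⟨fun i => w.get i, fun i => mem_mOfFn.1 hw i, ?_⟩
      change v none ∈ f (List.Vector.ofFn fun j => w.get j)
      rw [List.Vector.ofFn_get]; exact h
  | @rfind n f _ hf =>
    -- `f` is total with Diophantine graph
    have hf' : DiophFn fun v : Fin (n + 1) → ℕ => f (List.Vector.ofFn v) := by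
      refine Dioph.ext hf fun v => ?_
      change v none ∈ Part.some (f (List.Vector.ofFn (v ∘ some))) ↔ f (List.Vector.ofFn (v ∘ some)) = v none
      rw [Part.mem_some_iff]; exact eq_comm
    let Γ := Option (Fin n)
    have h1 : DiophFn fun w : Γ → ℕ =>
        f (List.Vector.ofFn (Fin.cons (w none) fun i => w (some i))) := by
      refine diophFn_comp_fin (F := fun v : Fin (n + 1) → ℕ => f (List.Vector.ofFn v)) hf'
        (φ := fun i w => (Fin.cons (w none) fun i => w (some i) : Fin (n + 1) → ℕ) i) fun i => ?_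
      refine Fin.cases ?_ (fun i => ?_) i
      · exact proj_dioph none
      · exact proj_dioph (some i)
    have h2 : DiophFn fun w : Option Γ → ℕ =>
        f (List.Vector.ofFn (Fin.cons (w none) fun i => w (some (some i)))) := by
      refine diophFn_comp_fin (F := fun v : Fin (n + 1) → ℕ => f (List.Vector.ofFn v)) hf'
        (φ := fun i w => (Fin.cons (w none) fun i => w (some (some i)) : Fin (n + 1) → ℕ) i)
        fun i => ?_
      refine Fin.cases ?_ (fun i => ?_) i
      · exact proj_dioph none
      · exact proj_dioph _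
    have h3 := ball_dioph (ne_dioph h2 (const_dioph 0)) (proj_dioph (none : Γ))
    refine Dioph.ext ((eq_dioph h1 (const_dioph 0)).inter h3) fun v => ?_
    have hmem := @Nat.mem_rfind (fun k => Part.some (decide (f (k ::ᵥ List.Vector.ofFn (v ∘ some)) = 0)))
      (v none)
    refine Iff.trans ?_ hmem.symm
    constructor
    · rintro ⟨h1, h2⟩
      have h1' : f (v none ::ᵥ List.Vector.ofFn (v ∘ some)) = 0 := h1
      refine ⟨?_, fun {k} hk => ?_⟩
      · rw [Part.mem_some_iff]; simp [h1']
      · have h2' : f (k ::ᵥ List.Vector.ofFn (v ∘ some)) ≠ 0 := h2 k hk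
        rw [Part.mem_some_iff]; simp [h2']
    · rintro ⟨h1, h2⟩
      rw [Part.mem_some_iff] at h1
      refine ⟨?_, fun k hk => ?_⟩
      · have : f (v none ::ᵥ List.Vector.ofFn (v ∘ some)) = 0 := by simpa using h1
        exact this
      · have h2' := h2 hk
        rw [Part.mem_some_iff] at h2'
        have : f (k ::ᵥ List.Vector.ofFn (v ∘ some)) ≠ 0 := by simpa using h2'
        exact this

/-- The graph of a recursive (not necessarily total) function of one variable is Diophantine. -/
theorem partrec_graph_dioph {f : ℕ →. ℕ} (hf : Nat.Partrec f) :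
    Dioph {v : Bool → ℕ | v true ∈ f (v false)} := by
  have h1 : Nat.Partrec' fun v : List.Vector ℕ 1 => f v.head :=
    Nat.Partrec'.of_part ((Partrec.nat_iff.2 hf).comp (Computable.vector_head))
  refine Dioph.ext (reindex_dioph Bool (Option.elim' true fun _ => false) (partrec'_dioph h1))
    fun v => Iff.rfl

/-- The domain of a recursive (not necessarily total) function of one variable is Diophantine. -/
theorem partrec_dom_dioph {f : ℕ →. ℕ} (hf : Nat.Partrec f) :
    Dioph {v : Unit → ℕ | (f (v ())).Dom} := by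
  have h1 : Dioph {w : Unit ⊕ Unit → ℕ | w (Sum.inr ()) ∈ f (w (Sum.inl ()))} :=
    Dioph.ext (reindex_dioph (Unit ⊕ Unit) (fun b : Bool => cond b (Sum.inr ()) (Sum.inl ()))
      (partrec_graph_dioph hf)) fun v => Iff.rfl
  refine Dioph.ext (ex_dioph h1) fun v => ?_
  change (∃ x : Unit → ℕ, x () ∈ f (v ())) ↔ (f (v ())).Dom
  rw [Part.dom_iff_mem]
  exact ⟨fun ⟨x, hx⟩ => ⟨x (), hx⟩, fun ⟨y, hy⟩ => ⟨fun _ => y, hy⟩⟩

end Pool.Agent.MRDP
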